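import Mathlib

/-!
# The bound of Weil for mixed sums, part C: power sums
-/

set_option autoImplicit false

open Filter Topology

namespace Pool.Agent.H90.WM

/-- if the power sums are at most `C s ^ k`, all the numbers are at most `s` in absolute value -/
theorem power_sum {ι : Type} [Fintype ι] (γ : ι → ℂ) (C s : ℝ) (hs : 0 < s)
    (h : ∀ k : ℕ, 1 ≤ k → ‖∑ i, γ i ^ k‖ ≤ C * s ^ k) (i : ι) : ‖γ i‖ ≤ s := by
  classical
  by_contra hcon
  push Not at hcon
  obtain ⟨i₀, -, hi₀⟩ := Finset.exists_max_image Finset.univ (fun i => ‖γ i‖) ⟨i, Finset.mem_univ i⟩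
  set ρ : ℝ := ‖γ i₀‖ with hρ
  have hρs : s < ρ := hcon.trans_le (hi₀ i (Finset.mem_univ i))
  have hρ0 : 0 < ρ := hs.trans hρs
  let u : ι → ℂ := fun j => γ j / ρ
  have hu : ∀ j, ‖u j‖ ≤ 1 := by
    intro j
    show ‖γ j / ρ‖ ≤ 1
    rw [norm_div, Complex.norm_real, Real.norm_of_nonneg hρ0.le, div_le_one hρ0]
    exact hi₀ j (Finset.mem_univ j)
  have hu₀ : ‖u i₀‖ = 1 := by
    show ‖γ i₀ / ρ‖ = 1
    rw [norm_div, Complex.norm_real, Real.norm_of_nonneg hρ0.le, ← hρ, div_self hρ0.ne']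
  -- the power sums of `u` tend to zero
  have hz : Tendsto (fun k : ℕ => ∑ j, u j ^ k) atTop (𝓝 0) := by
    have h1 : Tendsto (fun k : ℕ => |C| * (s / ρ) ^ k) atTop (𝓝 0) := by
      have h2 : Tendsto (fun k : ℕ => (s / ρ) ^ k) atTop (𝓝 0) :=
        tendsto_pow_atTop_nhds_zero_of_lt_one (by positivity) ((div_lt_one hρ0).2 hρs)
      have h3 := h2.const_mul |C|
      rwa [mul_zero] at h3
    refine squeeze_zero_norm' ?_ h1
    filter_upwards [eventually_ge_atTop 1] with k hk
    have h2 : ∑ j, u j ^ k = (∑ j, γ j ^ k) / (ρ : ℂ) ^ k := by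
      rw [Finset.sum_div]
      refine Finset.sum_congr rfl fun j _ => ?_
      show (γ j / ρ) ^ k = _
      rw [div_pow]
    rw [h2, norm_div, norm_pow, Complex.norm_real, Real.norm_of_nonneg hρ0.le, div_pow, mul_div_assoc',
      div_le_div_iff_of_pos_right (pow_pos hρ0 k)]
    exact (h k hk).trans (mul_le_mul_of_nonneg_right (le_abs_self C) (by positivity))
  -- compactness
  let v : ℕ → (ι → ℂ) := fun k j => u j ^ k
  have hv : ∀ k, v k ∈ Metric.closedBall (0 : ι → ℂ) 1 := by
    intro k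
    rw [mem_closedBall_zero_iff, pi_norm_le_iff_of_nonneg zero_le_one]
    intro j
    show ‖u j ^ k‖ ≤ 1
    rw [norm_pow]
    exact pow_le_one₀ (norm_nonneg _) (hu j)
  obtain ⟨w, -, φ, hφ, hw⟩ := (isCompact_closedBall (0 : ι → ℂ) 1).tendsto_subseq hv
  have hwj : ∀ j, Tendsto (fun n => u j ^ φ n) atTop (𝓝 (w j)) := by
    intro j
    exact (tendsto_pi_nhds.1 hw) j
  have h2n : Tendsto (fun n : ℕ => 2 * n) atTop atTop :=
    tendsto_id.const_mul_atTop' (by norm_num)
  have hgap : ∀ n : ℕ, n ≤ φ (2 * n) - φ n := by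
    intro n
    have h1 : ∀ m : ℕ, φ n + m ≤ φ (n + m) := by
      intro m
      induction m with
      | zero => simp
      | succ m ih =>
        have := hφ (Nat.lt_succ_self (n + m))
        have e : n + (m + 1) = (n + m).succ := rfl
        rw [e]
        omega
    have h3 := h1 n
    rw [← two_mul] at h3
    omega
  have hk : Tendsto (fun n : ℕ => φ (2 * n) - φ n) atTop atTop :=
    tendsto_atTop_mono hgap tendsto_id
  -- the limit of the powers
  have hlim : ∀ j, Tendsto (fun n : ℕ => u j ^ (φ (2 * n) - φ n)) atTop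
      (𝓝 (if ‖u j‖ = 1 then 1 else 0)) := by
    intro j
    by_cases hj : ‖u j‖ = 1
    · rw [if_pos hj]
      have hj0 : u j ≠ 0 := by
        intro h0
        rw [h0, norm_zero] at hj
        exact zero_ne_one hj
      have hw1 : ‖w j‖ = 1 := by
        have h1 := (hwj j).norm
        have h3 : (fun n => ‖u j ^ φ n‖) = fun _ => (1 : ℝ) := by
          funext n
          rw [norm_pow, hj, one_pow]
        rw [h3] at h1
        exact (tendsto_nhds_unique h1 tendsto_const_nhds)
      have hw0 : w j ≠ 0 := by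
        intro h0
        rw [h0, norm_zero] at hw1
        exact zero_ne_one hw1
      have h3 := ((hwj j).comp h2n).div (hwj j) hw0
      rw [div_self hw0] at h3
      refine h3.congr fun n => ?_
      show u j ^ φ (2 * n) / u j ^ φ n = _
      have h4 : φ n ≤ φ (2 * n) := hφ.monotone (by omega)
      rw [div_eq_iff (pow_ne_zero _ hj0), ← pow_add, Nat.sub_add_cancel h4]
    · rw [if_neg hj]
      have h1 : ‖u j‖ < 1 := lt_of_le_of_ne (hu j) hj
      exact (tendsto_pow_atTop_nhds_zero_of_norm_lt_one h1).comp hk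
  have hsum : Tendsto (fun n : ℕ => ∑ j, u j ^ (φ (2 * n) - φ n)) atTop
      (𝓝 (∑ j, if ‖u j‖ = 1 then (1 : ℂ) else 0)) :=
    tendsto_finsetSum _ fun j _ => hlim j
  have h0 := tendsto_nhds_unique hsum (hz.comp hk)
  rw [← Finset.sum_filter, Finset.sum_const, nsmul_eq_mul, mul_one] at h0
  have h1 : (Finset.univ.filter fun j => ‖u j‖ = 1).card = 0 := by exact_mod_cast h0
  rw [Finset.card_eq_zero] at h1
  have h2 : i₀ ∈ Finset.univ.filter fun j => ‖u j‖ = 1 :=
    Finset.mem_filter.2 ⟨Finset.mem_univ _, hu₀⟩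
  rw [h1] at h2
  exact absurd h2 (Finset.notMem_empty _)

/-- the power sums of an `L`-function of degree two -/
theorem two_roots (a S : ℕ → ℂ) (h0 : a 0 = 1) (h3 : ∀ n, 3 ≤ n → a n = 0)
    (hrec : ∀ n : ℕ, 1 ≤ n → (n : ℂ) * a n = ∑ k ∈ Finset.Icc 1 n, S k * a (n - k)) :
    ∃ w : Fin 2 → ℂ, ∀ k : ℕ, 1 ≤ k → S k = -(w 0 ^ k + w 1 ^ k) := by
  obtain ⟨r, hr⟩ := IsAlgClosed.exists_pow_nat_eq (a 1 ^ 2 - 4 * a 2) (n := 2) (by norm_num)
  set w₁ : ℂ := (-a 1 + r) / 2 with hw₁
  set w₂ : ℂ := (-a 1 - r) / 2 with hw₂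
  have hsum : a 1 = -(w₁ + w₂) := by rw [hw₁, hw₂]; ring
  have hprod : a 2 = w₁ * w₂ := by
    have : w₁ * w₂ = (a 1 ^ 2 - r ^ 2) / 4 := by rw [hw₁, hw₂]; ring
    rw [this, hr]; ring
  have hS1 : S 1 = -(w₁ + w₂) := by
    have := hrec 1 le_rfl
    simp [h0] at this
    rw [← this, hsum]
  have hS2 : S 2 = -(w₁ ^ 2 + w₂ ^ 2) := by
    have := hrec 2 (by norm_num)
    rw [Finset.sum_Icc_succ_top (by norm_num), Finset.Icc_self, Finset.sum_singleton] at this
    simp only [Nat.reduceAdd, Nat.reduceSub, h0, hS1, hsum, hprod] at this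
    push_cast at this
    linear_combination -this
  have hSk : ∀ k : ℕ, 1 ≤ k → S k = -(w₁ ^ k + w₂ ^ k) := by
    intro k
    induction k using Nat.strong_induction_on with
    | _ k ih =>
      intro hk
      match k, hk, ih with
      | 1, _, _ => simpa using hS1
      | 2, _, _ => exact hS2
      | m + 3, _, ih =>
        have h4 := hrec (m + 3) (by omega)
        rw [h3 _ (by omega), mul_zero, Finset.sum_Icc_succ_top (by omega),
          Finset.sum_Icc_succ_top (by omega), Finset.sum_Icc_succ_top (by omega),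
          Finset.sum_eq_zero] at h4
        · have e1 : m + 3 - (m + 1) = 2 := by omega
          have e2 : m + 3 - (m + 1 + 1) = 1 := by omega
          have e3 : m + 3 - (m + 2 + 1) = 0 := by omega
          rw [e1, e2, e3, h0, hsum, hprod, ih (m + 1) (by omega) (by omega),
            ih (m + 1 + 1) (by omega) (by omega)] at h4
          have e4 : S (m + 3) = S (m + 2 + 1) := rfl
          rw [e4]
          linear_combination -h4
        · intro k hk
          rw [Finset.mem_Icc] at hk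
          rw [h3 _ (by omega), mul_zero]
  exact ⟨![w₁, w₂], fun k hk => by simpa using hSk k hk⟩

end Pool.Agent.H90.WM
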