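import Pool.Agent.H63.BG.W_LX

/-!
# The bound of Weil for mixed sums, part A: the multiplicative function

For a monic polynomial `g` with roots `y` the function `lw` is the product of
`χ (y + h) conj χ (y) ψ (y)`.
-/

set_option autoImplicit false

open Polynomial

namespace Pool.Agent.H90.WM

open Pool.Agent.H23.BG (am sm)

/-- the product of `y + b` over the roots `y` of the monic polynomial `g` -/
noncomputable def rv {F : Type} [Field F] (b : F) (g : F[X]) : F :=
  (-1) ^ g.natDegree * g.eval (-b)

/-- the multiplicative function of the mixed sum -/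
noncomputable def lw {F : Type} [Field F] (χ : MulChar F ℂ) (ψ : AddChar F ℂ) (h : F)
    (g : F[X]) : ℂ :=
  χ (rv h g) * (starRingEnd ℂ) (χ (rv 0 g)) * ψ (-g.nextCoeff)

section

variable {F : Type} [Field F]

theorem rv_one (b : F) : rv b (1 : F[X]) = 1 := by
  unfold rv
  simp

theorem rv_mul (b : F) {g h : F[X]} (hg : g.Monic) (hh : h.Monic) :
    rv b (g * h) = rv b g * rv b h := by
  unfold rv
  rw [hg.natDegree_mul hh, eval_mul, pow_add]
  ring

theorem lw_one (χ : MulChar F ℂ) (ψ : AddChar F ℂ) (h : F) : lw χ ψ h 1 = 1 := by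
  have h0 : (1 : F[X]).nextCoeff = 0 := by
    rw [← map_one (C : F →+* F[X])]
    exact nextCoeff_C_eq_zero _
  unfold lw
  rw [rv_one, rv_one, map_one, h0, neg_zero, AddChar.map_zero_eq_one]
  simp

theorem lw_mul (χ : MulChar F ℂ) (ψ : AddChar F ℂ) (h : F) {f g : F[X]} (hf : f.Monic)
    (hg : g.Monic) : lw χ ψ h (f * g) = lw χ ψ h f * lw χ ψ h g := by
  unfold lw
  rw [rv_mul h hf hg, rv_mul 0 hf hg, map_mul, map_mul, map_mul, hf.nextCoeff_mul hg, neg_add,
    AddChar.map_add_eq_mul]
  ring

theorem norm_add {E : Type} [Field E] [Algebra F E] [FiniteDimensional F E] (y : E) (b : F) :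
    Algebra.norm F (y + algebraMap F E b) =
      rv b (minpoly F y) ^ (Module.finrank F E / (minpoly F y).natDegree) := by
  have hy : IsIntegral F y := Algebra.IsIntegral.isIntegral y
  set L := IntermediateField.adjoin F {y} with hL
  have h1 : Module.finrank F L = (minpoly F y).natDegree := IntermediateField.adjoin.finrank hy
  have h2 : Module.finrank F L * Module.finrank L E = Module.finrank F E :=
    Module.finrank_mul_finrank F L E
  have h3 : Module.finrank F E / (minpoly F y).natDegree = Module.finrank L E := by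
    rw [← h2, ← h1]
    exact Nat.mul_div_cancel_left _ Module.finrank_pos
  let x : L := algebraMap F L (-1) * (algebraMap F L (-b) -
    IntermediateField.AdjoinSimple.gen F y)
  have h4 : algebraMap L E x = y + algebraMap F E b := by
    show algebraMap L E (algebraMap F L (-1) * (algebraMap F L (-b) -
      IntermediateField.AdjoinSimple.gen F y)) = _
    rw [map_mul, map_sub, IntermediateField.AdjoinSimple.algebraMap_gen,
      ← IsScalarTower.algebraMap_apply F L E, ← IsScalarTower.algebraMap_apply F L E, map_neg,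
      map_neg, map_one]
    ring
  have h5 : Algebra.norm F x = rv b (minpoly F y) := by
    show Algebra.norm F (algebraMap F L (-1) * (algebraMap F L (-b) -
      IntermediateField.AdjoinSimple.gen F y)) = _
    rw [map_mul, Algebra.norm_algebraMap, Pool.Agent.H63.BG.W_LX.norm_gen, h1]
    rfl
  rw [← h4, ← Algebra.norm_norm (S := L), Algebra.norm_algebraMap, map_pow, h5, h3]

theorem trace_min {E : Type} [Field E] [Algebra F E] [FiniteDimensional F E] (y : E) :
    Algebra.trace F E y =
      (Module.finrank F E / (minpoly F y).natDegree) • (-(minpoly F y).nextCoeff) := by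
  have hy : IsIntegral F y := Algebra.IsIntegral.isIntegral y
  set L := IntermediateField.adjoin F {y} with hL
  have h1 : Module.finrank F L = (minpoly F y).natDegree := IntermediateField.adjoin.finrank hy
  have h2 : Module.finrank F L * Module.finrank L E = Module.finrank F E :=
    Module.finrank_mul_finrank F L E
  have h3 : Module.finrank F E / (minpoly F y).natDegree = Module.finrank L E := by
    rw [← h2, ← h1]
    exact Nat.mul_div_cancel_left _ Module.finrank_pos
  rw [h3, trace_eq_trace_adjoin F y]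
  congr 1
  have h4 := PowerBasis.trace_gen_eq_nextCoeff_minpoly (IntermediateField.adjoin.powerBasis hy)
  rw [IntermediateField.adjoin.powerBasis_gen, IntermediateField.minpoly_gen] at h4
  exact h4

theorem lw_minpoly (χ : MulChar F ℂ) (ψ : AddChar F ℂ) (h : F) {E : Type} [Field E]
    [Algebra F E] [FiniteDimensional F E] (y : E) :
    lw χ ψ h (minpoly F y) ^ (Module.finrank F E / (minpoly F y).natDegree) =
      χ (Algebra.norm F (y + algebraMap F E h)) * (starRingEnd ℂ) (χ (Algebra.norm F y)) *
        ψ (Algebra.trace F E y) := by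
  have h0 := norm_add (F := F) y 0
  rw [map_zero, add_zero] at h0
  rw [norm_add y h, h0, trace_min]
  unfold lw
  rw [AddChar.map_nsmul_eq_pow, map_pow, map_pow, map_pow, mul_pow, mul_pow]

end

section

variable {F : Type} [Field F] [Fintype F]

theorem va_finite (n : ℕ) : {g : F[X] | g.Monic ∧ g.natDegree = n}.Finite := by
  have h1 : Finite (degreeLT F (n + 1)) :=
    Finite.of_equiv _ (degreeLTEquiv F (n + 1)).symm.toEquiv
  have h2 : ((degreeLT F (n + 1) : Submodule F F[X]) : Set F[X]).Finite := Set.toFinite _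
  refine h2.subset ?_
  rintro g ⟨hg1, hg2⟩
  change g ∈ degreeLT F (n + 1)
  rw [mem_degreeLT, degree_eq_natDegree hg1.ne_zero, hg2]
  exact_mod_cast Nat.lt_succ_self n

omit [Fintype F] in
theorem va_add {n : ℕ} {g w : F[X]} (hg : g.Monic ∧ g.natDegree = n)
    (hw : w.natDegree < n) (s : F) :
    (g + C s * w).Monic ∧ (g + C s * w).natDegree = n := by
  have h1 : (C s * w).natDegree < g.natDegree := by
    rw [hg.2]
    exact (natDegree_C_mul_le s w).trans_lt hw
  constructor
  · exact hg.1.add_of_left (degree_lt_degree h1)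
  · rw [natDegree_add_eq_left_of_natDegree_lt h1, hg.2]

/-- translation by the multiples of `w` -/
theorem va_trans (Xf : F[X] → ℂ) (n : ℕ) (w : F[X]) (hw : w.natDegree < n)
    (h : ∀ g : F[X], g.Monic → g.natDegree = n → ∑ s : F, Xf (g + C s * w) = 0) :
    am F Xf n = 0 := by
  classical
  have hfin := va_finite (F := F) n
  have e0 : am F Xf n = ∑ g ∈ hfin.toFinset, Xf g := by
    unfold am
    exact finsum_mem_eq_finite_toFinset_sum _ hfin
  have mem : ∀ g : F[X], g ∈ hfin.toFinset ↔ (g.Monic ∧ g.natDegree = n) := fun g => by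
    rw [Set.Finite.mem_toFinset]
    rfl
  have e1 : ∀ s : F, ∑ g ∈ hfin.toFinset, Xf (g + C s * w) = am F Xf n := by
    intro s
    rw [e0]
    refine Finset.sum_nbij' (fun g => g + C s * w) (fun g => g + C (-s) * w) ?_ ?_ ?_ ?_ ?_
    · intro g hg
      exact (mem _).2 (va_add ((mem g).1 hg) hw s)
    · intro g hg
      exact (mem _).2 (va_add ((mem g).1 hg) hw (-s))
    · intro g _
      simp only [map_neg]
      ring
    · intro g _
      simp only [map_neg]
      ring
    · intro g _
      rfl
  have e2 : (Fintype.card F : ℂ) * am F Xf n = 0 := by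
    have h1 : ∑ s : F, ∑ g ∈ hfin.toFinset, Xf (g + C s * w) = (Fintype.card F : ℂ) * am F Xf n := by
      rw [Finset.sum_congr rfl fun s _ => e1 s, Finset.sum_const, nsmul_eq_mul]
      rfl
    rw [← h1, Finset.sum_comm]
    refine Finset.sum_eq_zero fun g hg => ?_
    exact h g ((mem g).1 hg).1 ((mem g).1 hg).2
  rcases mul_eq_zero.1 e2 with h1 | h1
  · exact absurd h1 (by exact_mod_cast Fintype.card_ne_zero)
  · exact h1

theorem va_sum (χ : MulChar F ℂ) (hχ : χ ≠ 1) (c u : F) (hc : c ≠ 0) :
    ∑ s : F, χ (c * (u + s)) = 0 := by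
  rw [← MulChar.sum_eq_zero_of_ne_one hχ]
  exact Fintype.sum_equiv ((Equiv.addLeft u).trans (Equiv.mulLeft₀ c hc)) _ _ fun s => rfl

omit [Fintype F] in
theorem am_zero (χ : MulChar F ℂ) (ψ : AddChar F ℂ) (h : F) : am F (lw χ ψ h) 0 = 1 := by
  unfold am
  have e : {g : F[X] | g.Monic ∧ g.natDegree = 0} = {1} := by
    ext g
    simp only [Set.mem_ofPred_eq, Set.mem_singleton_iff]
    constructor
    · rintro ⟨hg1, hg2⟩
      exact hg1.natDegree_eq_zero.1 hg2
    · rintro rfl
      exact ⟨monic_one, natDegree_one⟩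
  rw [e, finsum_mem_singleton]
  exact lw_one χ ψ h

theorem am_vanish (χ : MulChar F ℂ) (hχ : χ ≠ 1) (ψ : AddChar F ℂ) (h : F) (hh : h ≠ 0) (n : ℕ)
    (hn : 3 ≤ n) : am F (lw χ ψ h) n = 0 := by
  have hwd : (C (-h⁻¹) * X : F[X]).natDegree ≤ 1 := (natDegree_C_mul_le _ _).trans natDegree_X_le
  refine va_trans _ n (C (-h⁻¹) * X) (by omega) fun g hg1 hg2 => ?_
  have e : ∀ s : F, lw χ ψ h (g + C s * (C (-h⁻¹) * X)) =
      ((starRingEnd ℂ) (χ (rv 0 g)) * ψ (-g.nextCoeff)) *
        χ ((-1) ^ n * (g.eval (-h) + s)) := by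
    intro s
    have h1 := va_add (n := n) (g := g) (w := C (-h⁻¹) * X) ⟨hg1, hg2⟩ (by omega) s
    have h2 : (g + C s * (C (-h⁻¹) * X)).nextCoeff = g.nextCoeff := by
      rw [nextCoeff_of_natDegree_pos (by omega), nextCoeff_of_natDegree_pos (by omega), h1.2, hg2,
        coeff_add]
      have h3 : (C s * (C (-h⁻¹) * X) : F[X]).coeff (n - 1) = 0 := by
        refine coeff_eq_zero_of_natDegree_lt ?_
        have := natDegree_C_mul_le s (C (-h⁻¹) * X : F[X])
        omega
      rw [h3, add_zero]
    have h4 : rv 0 (g + C s * (C (-h⁻¹) * X)) = rv 0 g := by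
      unfold rv
      rw [h1.2, hg2]
      simp
    have h5 : rv h (g + C s * (C (-h⁻¹) * X)) = (-1) ^ n * (g.eval (-h) + s) := by
      unfold rv
      rw [h1.2]
      simp only [eval_add, eval_mul, eval_C, eval_X]
      congr 2
      field_simp
    unfold lw
    rw [h2, h4, h5]
    ring
  rw [Finset.sum_congr rfl fun s _ => e s, ← Finset.mul_sum,
    va_sum χ hχ _ _ (pow_ne_zero _ (by norm_num)), mul_zero]

end

end Pool.Agent.H90.WM
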