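import Pool.Agent.H90.WM.A
import Pool.Agent.H23.BG.TargetsW

/-!
# The bound of Weil for mixed sums, part B: the sum over the twists by the base field

The sum over `c` in `F` of the mixed sums over the extension `E` with the additive characters
`ψ (c tr x)` is the purely multiplicative sum of `χ (z ^ q - z + h) conj χ (z ^ q - z)`.
-/

set_option autoImplicit false

open Polynomial

namespace Pool.Agent.H90.WM

open Pool.Agent.H23.BG

section

variable {F E : Type} [Field F] [Fintype F] [Field E] [Fintype E] [Algebra F E]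

omit [Fintype E] in
theorem fixed_mem (z : E) (hz : z ^ Fintype.card F = z) : ∃ c : F, algebraMap F E c = z := by
  classical
  by_contra hcon
  push Not at hcon
  have hq : 1 < Fintype.card F := Fintype.one_lt_card
  let Z : Finset E := insert z (Finset.univ.image (algebraMap F E))
  have h0 : (X ^ Fintype.card F - X : E[X]) ≠ 0 := FiniteField.X_pow_card_sub_X_ne_zero E hq
  have h1 : Z.val ⊆ (X ^ Fintype.card F - X : E[X]).roots := by
    intro u hu
    rw [mem_roots h0, IsRoot.def, eval_sub, eval_pow, eval_X, sub_eq_zero]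
    have hu' : u ∈ Z := hu
    rw [Finset.mem_insert, Finset.mem_image] at hu'
    rcases hu' with rfl | ⟨c, _, rfl⟩
    · exact hz
    · rw [← map_pow, FiniteField.pow_card]
  have h2 := card_le_degree_of_subset_roots h1
  rw [FiniteField.X_pow_card_sub_X_natDegree_eq E hq] at h2
  have h3 : Z.card = Fintype.card F + 1 := by
    rw [Finset.card_insert_of_notMem, Finset.card_image_of_injective _ (algebraMap F E).injective,
      Finset.card_univ]
    rw [Finset.mem_image]
    rintro ⟨c, _, hc⟩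
    exact hcon c hc
  omega

/-- the additive character `ψ (tr x)` -/
noncomputable def pt (E : Type) [Field E] [Algebra F E] (ψ : AddChar F ℂ) : AddChar E ℂ :=
  ψ.compAddMonoidHom (Algebra.trace F E).toAddMonoidHom

omit [Fintype F] [Fintype E] in
theorem pt_apply (ψ : AddChar F ℂ) (x : E) : pt E ψ x = ψ (Algebra.trace F E x) := rfl

theorem pt_prim (ψ : AddChar F ℂ) (hψ : ψ ≠ 1) : (pt E ψ).IsPrimitive := by
  have : Module.Finite F E := Module.Finite.of_finite
  refine AddChar.IsPrimitive.of_ne_one fun h => hψ ?_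
  ext c
  obtain ⟨x, rfl⟩ := Algebra.trace_surjective F E c
  rw [← pt_apply, h]
  rfl

/-- the number of the solutions of `z ^ q - z = x` -/
theorem cnt_eq [DecidableEq E] (ψ : AddChar F ℂ) (hψ : ψ ≠ 1) (x : E) :
    ((Finset.univ.filter fun z : E => z ^ Fintype.card F - z = x).card : ℂ) =
      ∑ c : F, ψ (c * Algebra.trace F E x) := by
  classical
  have : Module.Finite F E := Module.Finite.of_finite
  let σ := FiniteField.frobeniusAlgEquivOfAlgebraic F E
  have hσ : ∀ z : E, σ z = z ^ Fintype.card F := fun z => by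
    show FiniteField.frobeniusAlgEquivOfAlgebraic F E z = _
    rw [FiniteField.coe_frobeniusAlgEquivOfAlgebraic]
  have hP := pt_prim (E := E) ψ hψ
  have hcard : (Fintype.card E : ℂ) ≠ 0 := by exact_mod_cast Fintype.card_ne_zero
  have e1 : (Fintype.card E : ℂ) *
      ((Finset.univ.filter fun z : E => z ^ Fintype.card F - z = x).card : ℂ) =
      ∑ z : E, ∑ e : E, pt E ψ (e * (σ z - z - x)) := by
    rw [Finset.card_filter]
    push_cast
    rw [Finset.mul_sum]
    refine Finset.sum_congr rfl fun z _ => ?_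
    rw [AddChar.sum_mulShift _ hP, hσ]
    by_cases h : z ^ Fintype.card F - z = x
    · rw [if_pos h, if_pos (by rw [h, sub_self]), mul_one]
    · rw [if_neg h, if_neg fun h' => h (sub_eq_zero.1 h'), mul_zero, Nat.cast_zero]
  have e2 : ∑ z : E, ∑ e : E, pt E ψ (e * (σ z - z - x)) =
      ∑ f : E, pt E ψ (-(σ f * x)) * ∑ z : E, pt E ψ (z * (f - σ f)) := by
    rw [Finset.sum_comm]
    rw [← Equiv.sum_comp σ.toEquiv]
    refine Finset.sum_congr rfl fun f _ => ?_
    rw [Finset.mul_sum]
    refine Finset.sum_congr rfl fun z _ => ?_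
    have h1 : pt E ψ (σ f * σ z) = pt E ψ (f * z) := by
      rw [pt_apply, pt_apply, ← map_mul, Algebra.trace_eq_of_algEquiv]
    have h2 : (σ.toEquiv f : E) * (σ z - z - x) = -(σ f * x) + (σ f * σ z + -(σ f * z)) := by
      show σ f * (σ z - z - x) = _
      ring
    have h3 : z * (f - σ f) = f * z + -(σ f * z) := by ring
    rw [h2, h3, AddChar.map_add_eq_mul, AddChar.map_add_eq_mul, h1, ← AddChar.map_add_eq_mul]
  have e3 : ∀ f : E, ∑ z : E, pt E ψ (z * (f - σ f)) =
      if f ∈ Finset.univ.image (algebraMap F E) then (Fintype.card E : ℂ) else 0 := by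
    intro f
    rw [AddChar.sum_mulShift _ hP]
    by_cases h : f ∈ Finset.univ.image (algebraMap F E)
    · obtain ⟨c, _, rfl⟩ := Finset.mem_image.1 h
      rw [if_pos h, if_pos]
      rw [hσ, ← map_pow, FiniteField.pow_card, sub_self]
    · rw [if_neg h, if_neg, Nat.cast_zero]
      intro h'
      apply h
      rw [hσ, sub_eq_zero] at h'
      obtain ⟨c, hc⟩ := fixed_mem f h'.symm
      exact Finset.mem_image.2 ⟨c, Finset.mem_univ _, hc⟩
  have e4 : ∑ f : E, pt E ψ (-(σ f * x)) * ∑ z : E, pt E ψ (z * (f - σ f)) =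
      (Fintype.card E : ℂ) * ∑ c : F, ψ (c * Algebra.trace F E x) := by
    have h1 : ∀ f : E, pt E ψ (-(σ f * x)) * ∑ z : E, pt E ψ (z * (f - σ f)) =
        if f ∈ Finset.univ.image (algebraMap F E) then
          (Fintype.card E : ℂ) * pt E ψ (-(σ f * x)) else 0 := by
      intro f
      rw [e3 f]
      split_ifs
      · ring
      · ring
    rw [Finset.sum_congr rfl fun f _ => h1 f, ← Finset.sum_filter, Finset.filter_mem_eq_inter,
      Finset.univ_inter, Finset.sum_image fun a _ b _ hab => (algebraMap F E).injective hab,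
      ← Finset.mul_sum]
    congr 1
    rw [← Equiv.sum_comp (Equiv.neg F)]
    refine Finset.sum_congr rfl fun c _ => ?_
    show pt E ψ (-(σ (algebraMap F E (-c)) * x)) = _
    rw [hσ, ← map_pow, FiniteField.pow_card, pt_apply, ← Algebra.smul_def, neg_smul, neg_neg,
      map_smul, smul_eq_mul]
  exact mul_left_cancel₀ hcard (by rw [e1, e2, e4])

/-- the sum over the twists -/
theorem twist_sum (ψ : AddChar F ℂ) (hψ : ψ ≠ 1) (G : E → ℂ) :
    ∑ c : F, ∑ x : E, G x * ψ (c * Algebra.trace F E x) =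
      ∑ z : E, G (z ^ Fintype.card F - z) := by
  classical
  rw [Finset.sum_comm]
  have h1 : ∀ x : E, ∑ c : F, G x * ψ (c * Algebra.trace F E x) =
      ∑ z : E, if z ^ Fintype.card F - z = x then G x else 0 := by
    intro x
    rw [← Finset.mul_sum, ← cnt_eq ψ hψ x, Finset.card_filter]
    push_cast
    rw [Finset.mul_sum]
    refine Finset.sum_congr rfl fun z _ => ?_
    split_ifs
    · rw [mul_one]
    · rw [mul_zero]
  rw [Finset.sum_congr rfl fun x _ => h1 x, Finset.sum_comm]
  refine Finset.sum_congr rfl fun z _ => ?_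
  rw [Finset.sum_ite_eq, if_pos (Finset.mem_univ _)]

end

/-- the purely multiplicative sum -/
theorem mult_bound (hSC : W_SC) (q d : ℕ) (hq : 2 ≤ q) (hd : 2 ≤ d) :
    ∃ C : ℝ, 0 ≤ C ∧ ∀ (E : Type) [Field E] [Fintype E] (χ : MulChar E ℂ), orderOf χ = d →
      ∀ h : E, h ≠ 0 →
      ‖∑ z : E, χ (z ^ q - z + h) * (starRingEnd ℂ) (χ (z ^ q - z))‖ ≤
        C * Real.sqrt (Fintype.card E) := by
  classical
  have hm : q + (q - 1) * (d - 1) = (q - 1) * d + 1 := by
    obtain ⟨a, rfl⟩ := Nat.exists_eq_add_of_le hq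
    obtain ⟨b, rfl⟩ := Nat.exists_eq_add_of_le hd
    have e1 : 2 + a - 1 = 1 + a := by omega
    have e2 : 2 + b - 1 = 1 + b := by omega
    rw [e1, e2]
    ring
  have hcop : Nat.Coprime ((q - 1) * d + 1) d := by
    rw [mul_comm, Nat.coprime_comm, Nat.coprime_mul_left_add_right]
    exact Nat.coprime_one_right _
  obtain ⟨C₀, hC0, hC⟩ := hSC d ((q - 1) * d + 1) hd (by omega) hcop
  refine ⟨C₀ + 1, by linarith, fun E _ _ χ hord h hh => ?_⟩
  have hconj : ∀ u : E, (starRingEnd ℂ) (χ u) = χ (u ^ (d - 1)) := by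
    intro u
    have h1 : (starRingEnd ℂ) (χ u) = χ⁻¹ u := MulChar.star_apply' χ u
    have h2 : χ⁻¹ = χ ^ (d - 1) := by
      rw [inv_eq_iff_mul_eq_one, ← pow_succ', Nat.sub_add_cancel (by omega), ← hord]
      exact pow_orderOf_eq_one χ
    rw [h1, h2, MulChar.pow_apply' χ (by omega), map_pow]
  let A : E[X] := C h * X ^ q - X ^ (q - 1) + 1
  let B : E[X] := 1 - X ^ (q - 1)
  have hA1 : (- X ^ (q - 1) + 1 : E[X]).natDegree < q := by
    refine lt_of_le_of_lt (natDegree_add_le _ _) ?_
    rw [natDegree_neg, natDegree_X_pow, natDegree_one]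
    have : max (q - 1) 0 = q - 1 := max_eq_left (Nat.zero_le _)
    rw [this]
    omega
  have hA : A.natDegree = q := by
    have h1 : A = (- X ^ (q - 1) + 1) + C h * X ^ q := by
      show C h * X ^ q - X ^ (q - 1) + 1 = _
      ring
    rw [h1, natDegree_add_eq_right_of_natDegree_lt, natDegree_C_mul_X_pow q h hh]
    rw [natDegree_C_mul_X_pow q h hh]
    exact hA1
  have hB : B.natDegree = q - 1 := by
    have h1 : B = C (-1) * X ^ (q - 1) + 1 := by
      show (1 : E[X]) - X ^ (q - 1) = _
      rw [map_neg, map_one]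
      ring
    have h2 : (C (-1 : E) * X ^ (q - 1)).natDegree = q - 1 :=
      natDegree_C_mul_X_pow _ _ (by norm_num)
    rw [h1, natDegree_add_eq_left_of_natDegree_lt, h2]
    rw [h2, natDegree_one]
    omega
  have hA0 : A ≠ 0 := by
    intro h0
    rw [h0, natDegree_zero] at hA
    omega
  have hB0 : B ≠ 0 := by
    intro h0
    rw [h0, natDegree_zero] at hB
    omega
  have hdeg : (A * B ^ (d - 1)).natDegree = (q - 1) * d + 1 := by
    rw [natDegree_mul hA0 (pow_ne_zero _ hB0), natDegree_pow, hA, hB, ← hm, mul_comm (d - 1)]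
  have h1 := hC E χ hord (A * B ^ (d - 1)) hdeg
  -- the term of `z = w⁻¹`
  have hterm : ∀ w : E, w ≠ 0 →
      χ ((w⁻¹) ^ q - w⁻¹ + h) * (starRingEnd ℂ) (χ ((w⁻¹) ^ q - w⁻¹)) =
        χ ((A * B ^ (d - 1)).eval w) := by
    intro w hw
    have ha : (w⁻¹) ^ q - w⁻¹ + h = (w⁻¹) ^ q * A.eval w := by
      show _ = (w⁻¹) ^ q * (C h * X ^ q - X ^ (q - 1) + 1 : E[X]).eval w
      simp only [eval_add, eval_sub, eval_mul, eval_C, eval_pow, eval_X, eval_one]
      have hwq : w ^ q = w * w ^ (q - 1) := by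
        rw [← pow_succ']
        congr 1
        omega
      have hwq1 : w ^ (q - 1) ≠ 0 := pow_ne_zero _ hw
      rw [inv_pow, hwq]
      field_simp
      ring
    have hb : (w⁻¹) ^ q - w⁻¹ = (w⁻¹) ^ q * B.eval w := by
      show _ = (w⁻¹) ^ q * (1 - X ^ (q - 1) : E[X]).eval w
      simp only [eval_sub, eval_pow, eval_X, eval_one]
      have hwq : w ^ q = w * w ^ (q - 1) := by
        rw [← pow_succ']
        congr 1
        omega
      have hwq1 : w ^ (q - 1) ≠ 0 := pow_ne_zero _ hw
      rw [inv_pow, hwq]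
      field_simp
    have hc : χ ((w⁻¹) ^ q) * (starRingEnd ℂ) (χ ((w⁻¹) ^ q)) = 1 := by
      have hv : (w⁻¹) ^ q ≠ 0 := pow_ne_zero _ (inv_ne_zero hw)
      have h2 : χ ((w⁻¹) ^ q) ^ (Fintype.card E - 1) = 1 := by
        rw [← map_pow, FiniteField.pow_card_sub_one_eq_one _ hv, map_one]
      have h3 : ‖χ ((w⁻¹) ^ q)‖ = 1 := Complex.norm_eq_one_of_pow_eq_one h2 (by
        have := Fintype.one_lt_card (α := E)
        omega)
      rw [Complex.mul_conj, Complex.normSq_eq_norm_sq, h3]
      norm_num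
    rw [ha, hb, map_mul, map_mul, map_mul, eval_mul, eval_pow, map_mul, ← hconj (B.eval w)]
    linear_combination (χ (A.eval w) * (starRingEnd ℂ) (χ (B.eval w))) * hc
  have h2 : ∑ z : E, χ (z ^ q - z + h) * (starRingEnd ℂ) (χ (z ^ q - z)) =
      ∑ w : E, χ ((A * B ^ (d - 1)).eval w) - 1 := by
    rw [← Finset.add_sum_erase _ _ (Finset.mem_univ (0 : E)),
      ← Finset.add_sum_erase _ (fun w => χ ((A * B ^ (d - 1)).eval w)) (Finset.mem_univ (0 : E))]
    have h3 : χ ((0 : E) ^ q - 0 + h) * (starRingEnd ℂ) (χ ((0 : E) ^ q - 0)) = 0 := by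
      rw [zero_pow (by omega), sub_zero, MulChar.map_zero, map_zero, mul_zero]
    have h4 : χ ((A * B ^ (d - 1)).eval 0) = 1 := by
      have h5 : (A * B ^ (d - 1)).eval 0 = 1 := by
        show ((C h * X ^ q - X ^ (q - 1) + 1) * (1 - X ^ (q - 1)) ^ (d - 1) : E[X]).eval 0 = 1
        simp only [eval_mul, eval_add, eval_sub, eval_C, eval_pow, eval_X, eval_one]
        rw [zero_pow (by omega), zero_pow (by omega)]
        ring
      rw [h5, map_one]
    rw [h3, h4]
    have h6 : ∑ z ∈ Finset.univ.erase (0 : E), χ (z ^ q - z + h) * (starRingEnd ℂ) (χ (z ^ q - z)) =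
        ∑ w ∈ Finset.univ.erase (0 : E), χ ((A * B ^ (d - 1)).eval w) := by
      refine Finset.sum_nbij' (fun z => z⁻¹) (fun w => w⁻¹) ?_ ?_ ?_ ?_ ?_
      · intro z hz
        rw [Finset.mem_erase] at hz ⊢
        exact ⟨inv_ne_zero hz.1, Finset.mem_univ _⟩
      · intro z hz
        rw [Finset.mem_erase] at hz ⊢
        exact ⟨inv_ne_zero hz.1, Finset.mem_univ _⟩
      · intro z _
        exact inv_inv z
      · intro z _
        exact inv_inv z
      · intro z hz
        rw [Finset.mem_erase] at hz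
        have := hterm z⁻¹ (inv_ne_zero hz.1)
        rw [inv_inv] at this
        exact this
    rw [h6]
    ring
  rw [h2]
  refine (norm_sub_le _ _).trans ?_
  rw [norm_one]
  have h7 : 1 ≤ Real.sqrt (Fintype.card E) := by
    rw [Real.one_le_sqrt]
    exact_mod_cast Fintype.card_pos
  nlinarith [h1]

end Pool.Agent.H90.WM
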