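import Pool.Agent.H90.WM.D
import Pool.Agent.H13.BR.NV
import Pool.Agent.H34.BG.HD
import Pool.Agent.H34.BG.SC
import Pool.Agent.H63.BG.W_EP
import Pool.Agent.H68.BG.W_NE
import Pool.Agent.H70.BG.W_EY
import Pool.Agent.H77.BG.W_EX
import Pool.Agent.H77.BG.W_ST

/-!
# The bound of Weil for mixed sums over a finite field, without hypotheses
-/

set_option autoImplicit false

namespace Pool.Agent.H90.WM

open Pool.Agent.H23.BG

private theorem e_SC : W_SC := Pool.Agent.H34.BG.SC.pf_W_SC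
  (Pool.Agent.H77.BG.pf_W_ST Pool.Agent.H34.BG.HD.pf_W_HD Pool.Agent.H13.BR.pf_W_NV
    Pool.Agent.H77.BG.pf_W_EX Pool.Agent.H77.BG.pf_W_VZ)

/-- `|∑ χ (x + h) conj χ (x) ψ (x)| ≤ 2 sqrt |F|` for `χ ≠ 1`, `h ≠ 0` and every additive
character `ψ` -/
theorem weil (F : Type) [Field F] [Fintype F] (χ : MulChar F ℂ) (hχ : χ ≠ 1) (ψ : AddChar F ℂ)
    (h : F) (hh : h ≠ 0) :
    ‖∑ x : F, χ (x + h) * (starRingEnd ℂ) (χ x) * ψ x‖ ≤ 2 * Real.sqrt (Fintype.card F) :=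
  weil_mixed e_SC Pool.Agent.H68.BG.pf_W_NE Pool.Agent.H63.BG.W_EP.pf_W_EP
    Pool.Agent.H70.BG.pf_W_EY F χ hχ ψ h hh

end Pool.Agent.H90.WM
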