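import Pool.Agent.H90.WM.B
import Pool.Agent.H90.WM.Cc

/-!
# The bound of Weil for mixed sums, part D: assembly

For a finite field `F`, a nontrivial multiplicative character `χ`, any additive character `ψ` and
`h ≠ 0` the sum of `χ (x + h) conj χ (x) ψ (x)` is at most `2 sqrt |F|` in absolute value.
-/

set_option autoImplicit false

open Polynomial

namespace Pool.Agent.H90.WM

open Pool.Agent.H23.BG

theorem weil_aux (hSC : W_SC) (hNE : W_NE) (hEP : W_EP) (hEY : W_EY) (F : Type) [Field F]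
    [Fintype F] (χ : MulChar F ℂ) (hχ : χ ≠ 1) (ψ : AddChar F ℂ) (hψ : ψ ≠ 1) (h : F)
    (hh : h ≠ 0) (c₀ : F) :
    ‖∑ x : F, χ (x + h) * (starRingEnd ℂ) (χ x) * ψ (c₀ * x)‖ ≤
      2 * Real.sqrt (Fintype.card F) := by
  classical
  set d : ℕ := orderOf χ with hd
  have hd0 : 0 < d := MulChar.orderOf_pos χ
  have hd1 : d ≠ 1 := fun h => hχ (orderOf_eq_one_iff.mp h)
  have hd2 : 2 ≤ d := by omega
  have hq2 : 2 ≤ Fintype.card F := Fintype.one_lt_card
  obtain ⟨C₀, hC0, hC⟩ := mult_bound hSC (Fintype.card F) d hq2 hd2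
  let ps : F → AddChar F ℂ := fun c => ψ.mulShift c
  have hps : ∀ c x : F, ps c x = ψ (c * x) := fun c x => AddChar.mulShift_apply
  -- the sums over the extensions
  have hsm : ∀ (E : Type) [Field E] [Fintype E] [Algebra F E] (c : F),
      sm F (lw χ (ps c) h) (Module.finrank F E) = ∑ y : E,
        χ (Algebra.norm F (y + algebraMap F E h)) * (starRingEnd ℂ) (χ (Algebra.norm F y)) *
          ψ (c * Algebra.trace F E y) := by
    intro E _ _ _ c
    have : Module.Finite F E := Module.Finite.of_finite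
    rw [hEY F E]
    refine Finset.sum_congr rfl fun y _ => ?_
    rw [lw_minpoly, hps]
  have hbound : ∀ k : ℕ, 1 ≤ k → ‖∑ c : F, sm F (lw χ (ps c) h) k‖ ≤
      C₀ * Real.sqrt (Fintype.card F) ^ k := by
    intro k hk
    obtain ⟨E, _, _, _, hfr, hch⟩ := hNE F k hk
    obtain ⟨χ', hord, hN⟩ := hch χ
    have h1 : ∑ c : F, sm F (lw χ (ps c) h) k =
        ∑ z : E, χ' (z ^ Fintype.card F - z + algebraMap F E h) *
          (starRingEnd ℂ) (χ' (z ^ Fintype.card F - z)) := by
      rw [← twist_sum ψ hψ (fun y : E => χ' (y + algebraMap F E h) * (starRingEnd ℂ) (χ' y))]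
      refine Finset.sum_congr rfl fun c _ => ?_
      rw [← hfr, hsm E c]
      refine Finset.sum_congr rfl fun y _ => ?_
      rw [hN, hN]
    rw [h1]
    have hhE : algebraMap F E h ≠ 0 := (map_ne_zero_iff _ (algebraMap F E).injective).mpr hh
    refine (hC E χ' (by rw [hord]) _ hhE).trans (le_of_eq ?_)
    have h2 : Real.sqrt (Fintype.card E) = Real.sqrt (Fintype.card F) ^ k := by
      rw [Module.card_eq_pow_finrank (K := F) (V := E), hfr]
      push_cast
      rw [Real.sqrt_eq_rpow, Real.sqrt_eq_rpow, ← Real.rpow_natCast, ← Real.rpow_natCast,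
        ← Real.rpow_mul (by positivity), ← Real.rpow_mul (by positivity)]
      congr 1
      ring
    rw [h2]
  -- the roots
  have hroots : ∀ c : F, ∃ w : Fin 2 → ℂ, ∀ k : ℕ, 1 ≤ k →
      sm F (lw χ (ps c) h) k = -(w 0 ^ k + w 1 ^ k) := fun c =>
    two_roots (am F (lw χ (ps c) h)) (sm F (lw χ (ps c) h)) (am_zero χ (ps c) h)
      (fun n hn => am_vanish χ hχ (ps c) h hh n hn)
      (fun n hn => hEP F _ (lw_one χ (ps c) h) (fun f g hf hg => lw_mul χ (ps c) h hf hg) n hn)
  choose w hw using hroots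
  have hs : 0 < Real.sqrt (Fintype.card F) := by
    rw [Real.sqrt_pos]
    exact_mod_cast Fintype.card_pos
  have hps2 := power_sum (ι := F × Fin 2) (fun x => w x.1 x.2) C₀ (Real.sqrt (Fintype.card F)) hs
    (by
      intro k hk
      have h1 : ∑ x : F × Fin 2, w x.1 x.2 ^ k = -∑ c : F, sm F (lw χ (ps c) h) k := by
        rw [Fintype.sum_prod_type, ← Finset.sum_neg_distrib]
        refine Finset.sum_congr rfl fun c _ => ?_
        rw [Fin.sum_univ_two, hw c k hk, neg_neg]
      rw [h1, norm_neg]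
      exact hbound k hk)
  have hS1 : sm F (lw χ (ps c₀) h) 1 =
      ∑ x : F, χ (x + h) * (starRingEnd ℂ) (χ x) * ψ (c₀ * x) := by
    have h8 := hsm F c₀
    rw [Module.finrank_self] at h8
    rw [h8]
    refine Finset.sum_congr rfl fun y _ => ?_
    simp only [Algebra.norm_self, MonoidHom.id_apply, Algebra.algebraMap_self, RingHom.id_apply,
      Algebra.trace_self_apply]
  rw [← hS1, hw c₀ 1 le_rfl, norm_neg, pow_one, pow_one]
  refine (norm_add_le _ _).trans ?_
  have h2 := hps2 (c₀, 0)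
  have h3 := hps2 (c₀, 1)
  linarith

/-- the bound of Weil for mixed sums -/
theorem weil_mixed (hSC : W_SC) (hNE : W_NE) (hEP : W_EP) (hEY : W_EY) (F : Type) [Field F]
    [Fintype F] (χ : MulChar F ℂ) (hχ : χ ≠ 1) (ψ : AddChar F ℂ) (h : F) (hh : h ≠ 0) :
    ‖∑ x : F, χ (x + h) * (starRingEnd ℂ) (χ x) * ψ x‖ ≤ 2 * Real.sqrt (Fintype.card F) := by
  by_cases hψ : ψ = 1
  · have hp := AddChar.FiniteField.primitiveChar_to_Complex_isPrimitive F
    have hp1 : AddChar.FiniteField.primitiveChar_to_Complex F ≠ 1 := by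
      have h0 := hp one_ne_zero
      rwa [AddChar.mulShift_one] at h0
    have h1 := weil_aux hSC hNE hEP hEY F χ hχ _ hp1 h hh 0
    simp only [zero_mul, AddChar.map_zero_eq_one] at h1
    rw [hψ]
    simpa using h1
  · have h1 := weil_aux hSC hNE hEP hEY F χ hχ ψ hψ h hh 1
    simpa using h1

end Pool.Agent.H90.WM
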